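import Pool.Agent.W8.ST.Stm

/-!
Project ST, task RMet: the metric is smooth and positive definite.
-/

open scoped ContDiff

namespace Pool.Agent.W413.ST

open Pool.Agent.W8.ST

theorem q_pos (t : ℝ) : 0 < q t := Real.exp_pos _

theorem q_smooth : ContDiff ℝ ∞ (fun x : V 4 => q (x 0)) := by
  have h0 : ContDiff ℝ ∞ (fun x : V 4 => x 0) := contDiff_apply ℝ ℝ (0 : Fin 4)
  unfold q
  exact ((contDiff_const.mul h0).mul (contDiff_const.sub (h0.pow 2))).exp

theorem qinv_smooth : ContDiff ℝ ∞ (fun x : V 4 => (q (x 0))⁻¹) :=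
  q_smooth.inv fun x => (q_pos (x 0)).ne'

theorem RMet_proof : RMet := by
  refine ⟨fun i j => ?_, fun x => ?_⟩
  · by_cases hij : i = j
    · subst hij
      have e : (fun x : V 4 => gex x i i) =
          fun x : V 4 => (![q (x 0), q (x 0) ^ 3, (q (x 0))⁻¹, (q (x 0))⁻¹] : Fin 4 → ℝ) i := by
        funext x
        rw [gex, Matrix.diagonal_apply_eq]
      rw [e]
      fin_cases i
      · exact q_smooth
      · exact q_smooth.pow 3
      · exact qinv_smooth
      · exact qinv_smooth
    · have e : (fun x : V 4 => gex x i j) = fun _ => (0 : ℝ) := by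
        funext x
        rw [gex, Matrix.diagonal_apply_ne _ hij]
      rw [e]
      exact contDiff_const
  · rw [gex]
    apply Matrix.PosDef.diagonal
    intro i
    have h := q_pos (x 0)
    fin_cases i
    · exact h
    · exact pow_pos h 3
    · exact inv_pos.2 h
    · exact inv_pos.2 h

end Pool.Agent.W413.ST
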